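import Pool.Agent.Helper7.GJ.GB2

/-! Module GB1: the second moment of `gz`. -/

set_option autoImplicit false

open Finset MeasureTheory Filter Topology Matrix
open scoped ENNReal ContDiff

namespace Pool.Agent.Helper44.GJ

open Pool.Agent.Helper44.GF Pool.Agent.Helper44.GN Pool.Agent.Helper44.GH

open GB2 in
theorem st_GB1 (hBLU : ST_BLU) (hGD : ST_GD) (hIN1 : ST_IN1) : ST_GB1 := by
  intro n m p V Z c hp hp5 hV hR hTV hT hZ v
  have hp3 : p ≤ 3 := by linarith
  have hc := hR.c0
  have hM := Mp_nonneg p V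
  obtain ⟨-, -, -, hc2, hg0, -, -, -, -, -⟩ := hGD p hp hp3
  obtain ⟨hI, -, hodd⟩ := hBLU n m p V hp (by linarith) hV (FF p V Z v) (ww p V Z c v)
    (rg hGD hp hp3 V Z c hc hT v)
  have hle := hodd (FF_odd hGD hp hp3 V Z v)
  set P : Fin n → (Fin m → ℝ) → ℝ := fun i x => Yj p V c i x + (Yj p V c i x)⁻¹ - 2 with hP
  have mY : ∀ i, Measurable (Yj p V c i) := fun i => (cont_Y hGD hp hp5 V c i).measurable
  have mP : ∀ i, Measurable (P i) := fun i => ((mY i).add (mY i).inv).sub_const 2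
  have hY0 : ∀ i x, 0 ≤ Yj p V c i x := fun i x => div_nonneg (hg0 _) (hc i).le
  have iP : ∀ i, V i ≠ 0 → Integrable (fun x => P i x * ee p V x) := by
    intro i hi
    refine int_dom hIN1 hGD hp hp5 V hV c hc i i hi hi (P i) (mP i) 2 (fun x => ?_)
    have h1 := hY0 i x
    have h2 := inv_nonneg.2 h1
    have h3 := sq_nonneg ((Yj p V c i x)⁻¹)
    rw [hP, abs_le]
    beta_reduce
    constructor <;> nlinarith [sq_nonneg (Yj p V c i x - 1), sq_nonneg ((Yj p V c i x)⁻¹ - 1)]
  have iT : ∀ i ∈ (Finset.univ : Finset (Fin n)),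
      Integrable (fun x => c i * (Z i ⬝ᵥ v) ^ 2 * (P i x * ee p V x)) := by
    intro i _
    by_cases hi : V i = 0
    · have h1 : (fun x : Fin m → ℝ => c i * (Z i ⬝ᵥ v) ^ 2 * (P i x * ee p V x)) = fun _ => 0 := by
        funext x
        rw [hZ i hi, zero_dotProduct]
        ring
      rw [h1]
      exact integrable_zero _ _ _
    · exact (iP i hi).const_mul _
  have h1 : IE p V (fun x => ∑ i, ww p V Z c v i x ^ 2 / g2 p (V.mulVec x i)) ≤
      ∫ x, ∑ i, c i * (Z i ⬝ᵥ v) ^ 2 * (P i x * ee p V x) := by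
    unfold IE
    refine integral_mono_ae hI (integrable_finsetSum _ iT) ?_
    have hnz : ∀ᵐ x : Fin m → ℝ, ∀ i, V i ≠ 0 → V.mulVec x i ≠ 0 := by
      rw [ae_all_iff]
      intro i
      by_cases hi : V i = 0
      · exact Eventually.of_forall fun _ h => absurd hi h
      · filter_upwards [row_ne V i hi] with x hx _ using hx
    filter_upwards [hnz] with x hx
    have he : 0 < ee p V x := Real.exp_pos _
    rw [Finset.sum_mul]
    refine Finset.sum_le_sum fun i _ => ?_
    by_cases hi : V i = 0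
    · have h2 : ww p V Z c v i x = 0 := by
        unfold ww
        rw [hZ i hi, zero_dotProduct, mul_zero]
      rw [h2, hZ i hi, zero_dotProduct]
      simp
    · have hgp : 0 < g2 p (V.mulVec x i) := by
        unfold g2
        have h2 : 0 < |V.mulVec x i| := abs_pos.2 (hx i hi)
        have h3 : 0 < |V.mulVec x i| ^ (p - 2) := Real.rpow_pos_of_pos h2 _
        exact mul_pos (mul_pos (by linarith) (by linarith)) h3
      have h2 : ww p V Z c v i x ^ 2 / g2 p (V.mulVec x i) = c i * (Z i ⬝ᵥ v) ^ 2 * P i x := by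
        unfold ww
        rw [alg_w hgp (hc i)]
        rfl
      rw [h2]
      exact le_of_eq (by ring)
  have h2 : ∫ x, ∑ i, c i * (Z i ⬝ᵥ v) ^ 2 * (P i x * ee p V x) ≤
      2 / 25 * (∑ i, c i * (Z i ⬝ᵥ v) ^ 2) * Mp p V := by
    rw [integral_finsetSum _ iT, Finset.mul_sum, Finset.sum_mul]
    refine Finset.sum_le_sum fun i _ => ?_
    rw [integral_const_mul]
    by_cases hi : V i = 0
    · rw [hZ i hi, zero_dotProduct]
      simp
    · have h3 : ∫ x, P i x * ee p V x ≤ 2 / 25 * Mp p V := hR.r4 i hi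
      have h4 : 0 ≤ c i * (Z i ⬝ᵥ v) ^ 2 := mul_nonneg (hc i).le (sq_nonneg _)
      have h5 := mul_le_mul_of_nonneg_left h3 h4
      linarith
  exact hle.trans (h1.trans h2)

end Pool.Agent.Helper44.GJ
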